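import Pool.Agent.Helper24.NR.Fin
import Pool.Agent.Helper99.NR.G
import Pool.Agent.Helper38.NR.Phi
import Pool.Agent.Helper60.NR.Tot
import Pool.Agent.Helper60.NR.OutB
import Pool.Agent.Helper60.NR.Win
import Pool.Agent.Helper69.NR.Loss
import Pool.Agent.Helper82.NR.Fin
import Pool.Agent.Helper10.RZ.Palm
import Pool.Agent.Helper57.TX.Final

/-!
# NR: assembly
-/

set_option autoImplicit false
open MeasureTheory Set Filter Topology
open Pool.Agent.Helper93.UG (zc sp)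
open Pool.Agent.Helper24.NR

namespace Pool.Agent.Helper57.NR

theorem tot_thick : TotThick :=
  Pool.Agent.Helper60.NR.tot_thick_of Pool.Agent.Helper99.NR.card_bd Pool.Agent.Helper99.NR.mem_Js
    Pool.Agent.Helper69.NR.mm_main69 Pool.Agent.Helper99.NR.tot_eq Pool.Agent.Helper69.NR.loss_thick
    Pool.Agent.Helper82.NR.sl_thick

theorem out_le : OutLe := Pool.Agent.Helper60.NR.out_le_of Pool.Agent.Helper38.NR.phi_far

theorem palm : Palm := Pool.Agent.Helper10.RZ.palm_of Pool.Agent.Helper57.TX.tx1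

theorem final_t : ∃ c C T₀ : ℝ, 0 < c ∧ 1 ≤ C ∧ ∀ T L e : ℝ, T₀ ≤ T → C ≤ L → L ≤ Real.log T → 0 < e → e ≤ 1 →
    volume {t : ℝ | T ≤ t ∧ t ≤ 2 * T ∧ Bad T L e t} ≤ ENNReal.ofReal (C * L ^ (-(c * e ^ 2)) * T) :=
  Pool.Agent.Helper24.NR.final_t Pool.Agent.Helper38.NR.phi_near tot_thick Pool.Agent.Helper60.NR.outm_tail out_le
    Pool.Agent.Helper60.NR.win_count

theorem final_g : ∃ c C T₀ : ℝ, 0 < c ∧ 1 ≤ C ∧ ∀ T L e : ℝ, T₀ ≤ T → C ≤ L → L ≤ Real.log T → 0 < e → e ≤ 1 →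
    (zc {g : ℝ | T ≤ g ∧ g ≤ 2 * T ∧ Bad T L e g} : ℝ) ≤ C * L ^ (-(c * e ^ 2)) * (T * Real.log T) :=
  Pool.Agent.Helper24.NR.final_g Pool.Agent.Helper38.NR.phi_near tot_thick Pool.Agent.Helper60.NR.outm_tail out_le
    Pool.Agent.Helper60.NR.win_count palm

end Pool.Agent.Helper57.NR
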